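import Mathlib

set_option autoImplicit false

namespace Pool.Agent.Results.MP_0e87b2_co.TwoSetFailure

open Finset

/-- the linear map `x ↦ ∑ x_i r^i`. -/
def phi {k : ℕ} (r : ℤ) (x : Fin k → ℤ) : ℤ := ∑ i, x i * r ^ (i : ℕ)

lemma phi_succ {k : ℕ} (r : ℤ) (x : Fin (k + 1) → ℤ) :
    phi r x = x 0 + r * phi r (fun i : Fin k => x i.succ) := by
  unfold phi
  rw [Fin.sum_univ_succ, Finset.mul_sum]
  congr 1
  · simp
  · apply Finset.sum_congr rfl
    intro i _
    rw [Fin.val_succ, pow_succ]; ring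

lemma phi_add {k : ℕ} (r : ℤ) (x y : Fin k → ℤ) : phi r (x + y) = phi r x + phi r y := by
  unfold phi
  rw [← Finset.sum_add_distrib]
  exact Finset.sum_congr rfl fun i _ => by rw [Pi.add_apply, add_mul]

lemma phi_sub {k : ℕ} (r : ℤ) (x y : Fin k → ℤ) : phi r (x - y) = phi r x - phi r y := by
  unfold phi
  rw [← Finset.sum_sub_distrib]
  exact Finset.sum_congr rfl fun i _ => by rw [Pi.sub_apply, sub_mul]

/-- the bounds `r-1` in all but the last coordinate and `q-1` in the last one -/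
def bnd (k : ℕ) (r q : ℤ) (i : Fin (k + 1)) : ℤ := if i = Fin.last k then q - 1 else r - 1

/-- uniqueness of digits over the integers -/
lemma phi_eq_zero {k : ℕ} {r q : ℤ} (hr : 0 < r) (z : Fin (k + 1) → ℤ)
    (hz : ∀ i, |z i| ≤ bnd k r q i) (h0 : phi r z = 0) : z = 0 := by
  induction k with
  | zero =>
    have : z 0 = 0 := by simpa [phi] using h0
    funext i
    rw [Fin.fin_one_eq_zero i]; exact this
  | succ k ih =>
    rw [phi_succ] at h0
    have h1 : |z 0| ≤ r - 1 := by
      have := hz 0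
      unfold bnd at this
      rwa [if_neg (by exact Fin.ne_of_lt (Fin.last_pos))] at this
    have hdvd : r ∣ z 0 := ⟨-phi r (fun i : Fin (k + 1) => z i.succ), by linarith⟩
    have hz0 : z 0 = 0 := Int.eq_zero_of_abs_lt_dvd hdvd (by omega)
    have h2 : phi r (fun i : Fin (k + 1) => z i.succ) = 0 := by
      rw [hz0, zero_add] at h0
      exact (mul_eq_zero.1 h0).resolve_left hr.ne'
    have h3 := ih (fun i : Fin (k + 1) => z i.succ) (by
      intro i
      have := hz i.succ
      unfold bnd at this ⊢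
      rw [← Fin.succ_last] at this
      simpa [Fin.succ_inj] using this) h2
    funext i
    refine Fin.cases hz0 (fun j => ?_) i
    exact congrFun h3 j

/-- size bound -/
lemma phi_abs {k : ℕ} {r q : ℤ} (hr : 0 < r) (z : Fin (k + 1) → ℤ)
    (hz : ∀ i, |z i| ≤ bnd k r q i) : |phi r z| ≤ q * r ^ k - 1 := by
  induction k with
  | zero =>
    have h := hz 0
    unfold bnd at h
    rw [if_pos (by rfl)] at h
    simpa [phi] using h
  | succ k ih =>
    rw [phi_succ]
    have h1 : |z 0| ≤ r - 1 := by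
      have := hz 0
      unfold bnd at this
      rwa [if_neg (by exact Fin.ne_of_lt (Fin.last_pos))] at this
    have h3 := ih (fun i : Fin (k + 1) => z i.succ) (by
      intro i
      have := hz i.succ
      unfold bnd at this ⊢
      rw [← Fin.succ_last] at this
      simpa [Fin.succ_inj] using this)
    calc |z 0 + r * phi r (fun i : Fin (k + 1) => z i.succ)|
        ≤ |z 0| + |r * phi r (fun i : Fin (k + 1) => z i.succ)| := abs_add_le _ _
      _ = |z 0| + r * |phi r (fun i : Fin (k + 1) => z i.succ)| := by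
          rw [abs_mul, abs_of_pos hr]
      _ ≤ (r - 1) + r * (q * r ^ k - 1) := by gcongr
      _ = q * r ^ (k + 1) - 1 := by ring

/-- uniqueness of digits modulo `p` -/
lemma phi_mod {k : ℕ} {r q : ℤ} {p : ℕ} (hr : 0 < r) (hp : q * r ^ k ≤ p) (z : Fin (k + 1) → ℤ)
    (hz : ∀ i, |z i| ≤ bnd k r q i) (h0 : ((phi r z : ℤ) : ZMod p) = 0) : z = 0 := by
  apply phi_eq_zero hr z hz
  rw [ZMod.intCast_zmod_eq_zero_iff_dvd] at h0
  apply Int.eq_zero_of_abs_lt_dvd h0
  have := phi_abs hr z hz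
  omega

/-- the unit steps: `0`, `e_i`, `-e_i`. -/
def step (k : ℕ) : Option (Fin (k + 1) × Bool) → (Fin (k + 1) → ℤ)
  | none => 0
  | some (i, true) => Pi.single i 1
  | some (i, false) => Pi.single i (-1)

lemma step_abs (k : ℕ) (o : Option (Fin (k + 1) × Bool)) (i : Fin (k + 1)) :
    |step k o i| ≤ 1 := by
  rcases o with _ | ⟨j, b⟩
  · simp [step]
  · cases b <;> simp only [step, Pi.single_apply] <;> split_ifs <;> simp

lemma step_inj (k : ℕ) : Function.Injective (step k) := by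
  intro o o' h
  rcases o with _ | ⟨j, b⟩ <;> rcases o' with _ | ⟨j', b'⟩
  · rfl
  · exfalso
    have := congrFun h j'
    cases b' <;> simp [step] at this
  · exfalso
    have := congrFun h j
    cases b <;> simp [step] at this
  · have h1 := congrFun h j
    cases b <;> cases b' <;> simp only [step, Pi.single_apply] at h1 <;>
      by_cases hj : j = j' <;> simp_all

/-- two distinct steps do not point in the same coordinate except when opposite -/
lemma step_two (k : ℕ) (o o' : Option (Fin (k + 1) × Bool)) (h : o ≠ o') (i : Fin (k + 1)) :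
    step k o i = 0 ∨ step k o' i = 0 ∨ step k o i = - step k o' i := by
  rcases o with _ | ⟨j, b⟩
  · left; simp [step]
  rcases o' with _ | ⟨j', b'⟩
  · right; left; simp [step]
  by_cases h1 : i = j
  · by_cases h2 : i = j'
    · subst h1; subst h2
      right; right
      cases b <;> cases b' <;> simp_all [step]
    · right; left
      cases b' <;> simp [step, h2]
  · left
    cases b <;> simp [step, h1]

/-- the box of digit vectors -/
def inBox (k : ℕ) (r q : ℤ) (x : Fin (k + 1) → ℤ) : Prop := ∀ i, 0 ≤ x i ∧ x i ≤ bnd k r q i - 2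

/-- the corner of the box -/
def corner (k : ℕ) (r q : ℤ) : Fin (k + 1) → ℤ := fun i => bnd k r q i - 2

/-- the box of digit vectors as a finset -/
noncomputable def boxF (k : ℕ) (r q : ℤ) : Finset (Fin (k + 1) → ℤ) :=
  Fintype.piFinset fun i => Finset.Icc 0 (bnd k r q i - 2)

lemma mem_boxF {k : ℕ} {r q : ℤ} {x : Fin (k + 1) → ℤ} : x ∈ boxF k r q ↔ inBox k r q x := by
  simp [boxF, inBox]

/-- the image of the box in `ZMod p` -/
noncomputable def D (k : ℕ) (r q : ℤ) (p : ℕ) : Finset (ZMod p) :=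
  (boxF k r q).image fun x => ((phi r x : ℤ) : ZMod p)

lemma mem_D {k : ℕ} {r q : ℤ} {p : ℕ} {a : ZMod p} :
    a ∈ D k r q p ↔ ∃ x, inBox k r q x ∧ ((phi r x : ℤ) : ZMod p) = a := by
  simp [D, mem_boxF]

lemma D_symm {k : ℕ} {r q : ℤ} {p : ℕ} {a : ZMod p} (ha : a ∈ D k r q p) :
    ((phi r (corner k r q) : ℤ) : ZMod p) - a ∈ D k r q p := by
  obtain ⟨x, hx, rfl⟩ := mem_D.1 ha
  refine mem_D.2 ⟨corner k r q - x, ?_, ?_⟩
  · intro i
    have := hx i
    simp only [Pi.sub_apply, corner]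
    omega
  · rw [phi_sub]; push_cast; rfl

lemma D_key {k : ℕ} {r q : ℤ} {p : ℕ} (hr : 0 < r) (hp : q * r ^ k ≤ p) {a : ZMod p}
    (ha : a ∉ D k r q p) {o o' : Option (Fin (k + 1) × Bool)}
    (h1 : a + ((phi r (step k o) : ℤ) : ZMod p) ∈ D k r q p)
    (h2 : a + ((phi r (step k o') : ℤ) : ZMod p) ∈ D k r q p) : o = o' := by
  by_contra hne
  obtain ⟨u, hu, hu'⟩ := mem_D.1 h1
  obtain ⟨v, hv, hv'⟩ := mem_D.1 h2
  have hz : u - step k o - (v - step k o') = 0 := by
    apply phi_mod (k := k) (r := r) (q := q) (p := p) hr hp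
    · intro i
      have b1 := step_abs k o i
      have b2 := step_abs k o' i
      have b3 := hu i
      have b4 := hv i
      rw [abs_le] at b1 b2 ⊢
      simp only [Pi.sub_apply]
      omega
    · rw [phi_sub, phi_sub, phi_sub]
      push_cast
      rw [hu', hv']
      ring
  have hz' : u - step k o = v - step k o' := sub_eq_zero.1 hz
  apply ha
  refine mem_D.2 ⟨u - step k o, ?_, ?_⟩
  · intro i
    have b3 := hu i
    have b4 := hv i
    have e := congrFun hz' i
    simp only [Pi.sub_apply] at e ⊢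
    have b1 := step_abs k o i
    rw [abs_le] at b1
    rcases step_two k o o' hne i with h | h | h
    · rw [h]; omega
    · rw [h] at e; omega
    · omega
  · rw [phi_sub]
    push_cast
    rw [hu']
    ring

lemma D_card {k : ℕ} {r q : ℤ} {p : ℕ} (hr : 0 < r) (hp : q * r ^ k ≤ p) (hr2 : 2 ≤ r)
    (hq2 : 2 ≤ q) :
    ((D k r q p).card : ℤ) = (r - 2) ^ k * (q - 2) := by
  have h1 : (D k r q p).card = (boxF k r q).card := by
    apply Finset.card_image_of_injOn
    intro x hx y hy hxy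
    have hx' := mem_boxF.1 (Finset.mem_coe.1 hx)
    have hy' := mem_boxF.1 (Finset.mem_coe.1 hy)
    have : x - y = 0 := by
      apply phi_mod (k := k) (r := r) (q := q) (p := p) hr hp
      · intro i
        have b1 := hx' i
        have b2 := hy' i
        rw [abs_le]
        simp only [Pi.sub_apply]
        omega
      · rw [phi_sub]; push_cast
        have hxy' : ((phi r x : ℤ) : ZMod p) = ((phi r y : ℤ) : ZMod p) := hxy
        rw [hxy', sub_self]
    exact sub_eq_zero.1 this
  rw [h1, boxF, Fintype.card_piFinset]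
  push_cast
  rw [Fin.prod_univ_castSucc]
  congr 1
  · rw [Finset.prod_congr rfl (g := fun _ => (r - 2 : ℤ))]
    · simp
    · intro i _
      rw [Int.card_Icc]
      unfold bnd
      rw [if_neg (by exact Fin.ne_of_lt (Fin.castSucc_lt_last i))]
      rw [Int.toNat_of_nonneg (by omega)]
      ring
  · rw [Int.card_Icc]
    unfold bnd
    rw [if_pos rfl, Int.toNat_of_nonneg (by omega)]
    ring

lemma D_symm_iff {k : ℕ} {r q : ℤ} {p : ℕ} {a : ZMod p} (ha : a ∉ D k r q p) :
    ((phi r (corner k r q) : ℤ) : ZMod p) - a ∉ D k r q p := by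
  intro h
  apply ha
  have := D_symm h
  rwa [sub_sub_cancel] at this

/-- the target set of sums: the centre together with its `2(k+1)` neighbours -/
noncomputable def T (k : ℕ) (r q : ℤ) (p : ℕ) : Finset (ZMod p) :=
  (Finset.univ : Finset (Option (Fin (k + 1) × Bool))).image
    fun o => ((phi r (corner k r q) : ℤ) : ZMod p) + ((phi r (step k o) : ℤ) : ZMod p)

lemma T_card (k : ℕ) (r q : ℤ) (p : ℕ) : (T k r q p).card ≤ 2 * (k + 1) + 1 := by
  refine Finset.card_image_le.trans ?_
  simp only [Finset.card_univ, Fintype.card_option, Fintype.card_prod, Fintype.card_fin,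
    Fintype.card_bool]
  omega

lemma good {k : ℕ} {r q : ℤ} {p : ℕ} (hr : 3 ≤ r) (hq : 3 ≤ q) (hp : q * r ^ k ≤ p)
    (A : Finset (ZMod p)) (hA : ∀ x, x ∈ A ↔ x ∉ D k r q p) {a : ZMod p} (ha : a ∈ A) :
    ∃ Q : Finset (ZMod p), Q ⊆ A ∧ Q.card = 2 * (k + 1) ∧ ∀ b ∈ Q, a + b ∈ T k r q p := by
  classical
  have hr0 : 0 < r := by omega
  set a' : ZMod p := ((phi r (corner k r q) : ℤ) : ZMod p) - a with ha'
  have ha'D : a' ∉ D k r q p := D_symm_iff ((hA a).1 ha)
  let f : Option (Fin (k + 1) × Bool) → ZMod p := fun o => a' + ((phi r (step k o) : ℤ) : ZMod p)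
  have hf : Function.Injective f := by
    intro o o' h
    have h' : ((phi r (step k o) : ℤ) : ZMod p) = ((phi r (step k o') : ℤ) : ZMod p) :=
      add_left_cancel h
    apply step_inj k
    rw [← sub_eq_zero]
    apply phi_mod (k := k) (r := r) (q := q) (p := p) hr0 hp
    · intro i
      have b1 := step_abs k o i
      have b2 := step_abs k o' i
      rw [abs_le] at b1 b2 ⊢
      simp only [Pi.sub_apply]
      unfold bnd
      split_ifs <;> omega
    · rw [phi_sub]; push_cast; rw [h', sub_self]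
  let O1 := (Finset.univ : Finset (Option (Fin (k + 1) × Bool))).filter (fun o => f o ∈ D k r q p)
  let O2 := (Finset.univ : Finset (Option (Fin (k + 1) × Bool))).filter (fun o => ¬ f o ∈ D k r q p)
  have hO1 : O1.card ≤ 1 := by
    rw [Finset.card_le_one]
    intro o ho o' ho'
    exact D_key hr0 hp ha'D (Finset.mem_filter.1 ho).2 (Finset.mem_filter.1 ho').2
  have hsum : O1.card + O2.card = (Finset.univ : Finset (Option (Fin (k + 1) × Bool))).card :=
    Finset.card_filter_add_card_filter_not _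
  have huniv : (Finset.univ : Finset (Option (Fin (k + 1) × Bool))).card = 2 * (k + 1) + 1 := by
    simp only [Finset.card_univ, Fintype.card_option, Fintype.card_prod, Fintype.card_fin,
      Fintype.card_bool]
    omega
  have hO2 : (O2.image f).card = O2.card := Finset.card_image_of_injective _ hf
  obtain ⟨Q, hQsub, hQcard⟩ := Finset.exists_subset_card_eq (s := O2.image f) (n := 2 * (k + 1))
    (by omega)
  refine ⟨Q, ?_, hQcard, ?_⟩
  · intro b hb
    obtain ⟨o, ho, rfl⟩ := Finset.mem_image.1 (hQsub hb)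
    rw [hA]
    exact (Finset.mem_filter.1 ho).2
  · intro b hb
    obtain ⟨o, ho, rfl⟩ := Finset.mem_image.1 (hQsub hb)
    refine Finset.mem_image.2 ⟨o, Finset.mem_univ _, ?_⟩
    simp only [f, ha']
    ring

/-- counting: size of the complement of the box -/
lemma sizes (β : ℝ) (hβ0 : 0 < β) (hβ : β < 1) (k : ℕ) (hk : 1 ≤ k) (n₀ : ℕ) :
    ∃ (p : ℕ) (r q : ℤ), p.Prime ∧ 3 ≤ r ∧ 3 ≤ q ∧ q * r ^ k ≤ p ∧
      (n₀ : ℤ) ≤ (p : ℤ) - (r - 2) ^ k * (q - 2) ∧
      ((p : ℝ) - ((r : ℝ) - 2) ^ k * ((q : ℝ) - 2)) < (1 - β) * p / 2 := by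
  have hδ : 0 < 1 - β := by linarith
  obtain ⟨r, hr⟩ := exists_nat_gt (16 * (k : ℝ) / (1 - β) + 4)
  have hr4 : (4 : ℝ) < r := by
    have : 0 ≤ 16 * (k : ℝ) / (1 - β) := by positivity
    linarith
  have hr4' : 4 < r := by exact_mod_cast hr4
  obtain ⟨P, hP⟩ := exists_nat_gt (8 * (r : ℝ) ^ k / (1 - β))
  obtain ⟨p, hp1, hp⟩ := Nat.exists_infinite_primes (P + r ^ k * (n₀ + 3) + 1)
  let q : ℕ := p / r ^ k
  have hrk : 0 < r ^ k := by positivity
  have hq1 : q * r ^ k ≤ p := Nat.div_mul_le_self p (r ^ k)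
  have hq2 : p < q * r ^ k + r ^ k := by
    have := Nat.lt_div_mul_add hrk (a := p)
    simpa [q] using this
  have hq3 : n₀ + 3 ≤ q := by
    rw [Nat.le_div_iff_mul_le hrk]
    nlinarith
  have hlt : (r - 2 : ℤ) ^ k < (r : ℤ) ^ k :=
    pow_lt_pow_left₀ (by omega) (by omega) (by omega)
  refine ⟨p, r, q, hp, by omega, by omega, by exact_mod_cast hq1, ?_, ?_⟩
  · have h1 : ((r : ℤ) - 2) ^ k + 1 ≤ (r : ℤ) ^ k := hlt
    have h2 : (q : ℤ) * (r : ℤ) ^ k ≤ p := by exact_mod_cast hq1
    have h3 : (n₀ : ℤ) + 3 ≤ q := by exact_mod_cast hq3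
    have h4 : (0 : ℤ) ≤ ((r : ℤ) - 2) ^ k := by
      apply pow_nonneg; omega
    nlinarith
  · have hrpos : (0 : ℝ) < r := by linarith
    have hb : 1 + (k : ℝ) * (-(2 / (r : ℝ))) ≤ (1 + (-(2 / (r : ℝ)))) ^ k := by
      apply one_add_mul_le_pow
      have : 2 / (r : ℝ) ≤ 2 := by
        rw [div_le_iff₀ hrpos]; linarith
      linarith
    have hb2 : (r : ℝ) ^ k * (1 - 2 * k / r) ≤ ((r : ℝ) - 2) ^ k := by
      have e1 : ((r : ℝ) - 2) ^ k = (r : ℝ) ^ k * (1 + (-(2 / (r : ℝ)))) ^ k := by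
        rw [← mul_pow]; congr 1; field_simp; ring
      rw [e1]
      apply mul_le_mul_of_nonneg_left _ (by positivity)
      calc 1 - 2 * (k : ℝ) / r = 1 + (k : ℝ) * (-(2 / (r : ℝ))) := by ring
        _ ≤ _ := hb
    have hsmall : 2 * (k : ℝ) / r ≤ (1 - β) / 8 := by
      rw [div_le_iff₀ hrpos]
      have h1 : 16 * (k : ℝ) / (1 - β) < r := by linarith
      rw [div_lt_iff₀ hδ] at h1
      linarith
    have hq3' : (3 : ℝ) ≤ q := by
      have : 3 ≤ q := by omega
      exact_mod_cast this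
    have hq2' : (p : ℝ) < q * (r : ℝ) ^ k + (r : ℝ) ^ k := by exact_mod_cast hq2
    have hPp : (P : ℝ) ≤ p := by
      have : P ≤ p := by nlinarith
      exact_mod_cast this
    have hbig : 8 * (r : ℝ) ^ k < (1 - β) * p := by
      have := hP.trans_le hPp
      rw [div_lt_iff₀ hδ] at this
      linarith
    have hk0 : 0 ≤ 2 * (k : ℝ) / r := by positivity
    have hk1 : 2 * (k : ℝ) / r ≤ 1 := by linarith
    have hR : (0 : ℝ) < (r : ℝ) ^ k := by positivity
    have step1 : (r : ℝ) ^ k * (1 - 2 * k / r) * ((q : ℝ) - 2) ≤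
        ((r : ℝ) - 2) ^ k * ((q : ℝ) - 2) :=
      mul_le_mul_of_nonneg_right hb2 (by linarith)
    have step2 : (p : ℝ) - 3 * (r : ℝ) ^ k ≤ (r : ℝ) ^ k * ((q : ℝ) - 2) := by nlinarith
    have step3 : (1 - 2 * (k : ℝ) / r) * ((p : ℝ) - 3 * (r : ℝ) ^ k) ≤
        (1 - 2 * (k : ℝ) / r) * ((r : ℝ) ^ k * ((q : ℝ) - 2)) :=
      mul_le_mul_of_nonneg_left step2 (by linarith)
    have hp0 : (0 : ℝ) < p := by exact_mod_cast hp.pos
    have step4 : 2 * (k : ℝ) / r * p ≤ (1 - β) / 8 * p := mul_le_mul_of_nonneg_right hsmall hp0.le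
    have step5 : 0 ≤ 2 * (k : ℝ) / r * (3 * (r : ℝ) ^ k) := by positivity
    push_cast
    nlinarith

/-- The two-set statement fails for every `β ∈ (0,1)`, in every size range, even with `B' = B`:
for every `K ≥ 2` and `n₀` there are a prime `p`, sets `A, B ⊆ ℤ/p` with
`n₀ ≤ |A| = |B| = n < (1 - β) p / 2` and a set `F ⊆ A × B` of forbidden pairs of maximum degree at most
`d = n - 2 K` such that for every `B' ⊆ B` the restricted sum of `A` and `B'` has at most
`2 K + 1 = n - d + 1` elements, which is smaller than `2 n - 2 d - 1 = 4 K - 1`. -/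
theorem result (β : ℝ) (hβ0 : 0 < β) (hβ1 : β < 1) (K : ℕ) (hK : 2 ≤ K) (n₀ : ℕ) :
    ∃ p : ℕ, p.Prime ∧ ∃ (A B : Finset (ZMod p)) (F : Finset (ZMod p × ZMod p)) (d : ℕ),
      n₀ ≤ A.card ∧ A.card = B.card ∧ (A.card : ℝ) < (1 - β) * (p : ℝ) / 2 ∧
      F ⊆ A ×ˢ B ∧
      (∀ a : ZMod p, (F.filter (fun x => x.1 = a)).card ≤ d) ∧
      (∀ b : ZMod p, (F.filter (fun x => x.2 = b)).card ≤ d) ∧
      A.card = d + 2 * K ∧
      ∀ B' : Finset (ZMod p), B' ⊆ B →
        (((A ×ˢ B') \ F).image (fun x => x.1 + x.2)).card ≤ 2 * K + 1 ∧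
        ((((A ×ˢ B') \ F).image (fun x => x.1 + x.2)).card : ℤ) <
          2 * (A.card : ℤ) - 2 * (d : ℤ) - 1 := by
  classical
  obtain ⟨k, rfl⟩ : ∃ k, K = k + 1 := ⟨K - 1, by omega⟩
  obtain ⟨p, r, q, hp, hr, hq, hpq, hlow, hup⟩ := sizes β hβ0 hβ1 k (by omega) (n₀ + 2 * (k + 1))
  have : NeZero p := ⟨hp.ne_zero⟩
  refine ⟨p, hp, ?_⟩
  let A : Finset (ZMod p) := (D k r q p)ᶜ
  have hA : ∀ x, x ∈ A ↔ x ∉ D k r q p := fun x => Finset.mem_compl
  have hDc := D_card (k := k) (r := r) (q := q) (p := p) (by omega) hpq (by omega) (by omega)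
  have hAc : (A.card : ℤ) = (p : ℤ) - (r - 2) ^ k * (q - 2) := by
    have h1 : A.card = p - (D k r q p).card := by
      have := Finset.card_compl (D k r q p)
      rwa [ZMod.card] at this
    have h2 : (D k r q p).card ≤ p := by
      have := Finset.card_le_univ (D k r q p)
      rwa [ZMod.card] at this
    rw [h1, Nat.cast_sub h2, hDc]
  let F : Finset (ZMod p × ZMod p) := (A ×ˢ A).filter (fun x => x.1 + x.2 ∉ T k r q p)
  have hbig : n₀ + 2 * (k + 1) ≤ A.card := by
    have : ((n₀ + 2 * (k + 1) : ℕ) : ℤ) ≤ A.card := by rw [hAc]; exact hlow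
    exact_mod_cast this
  have hsub : ∀ B' : Finset (ZMod p), B' ⊆ A →
      ((A ×ˢ B') \ F).image (fun x => x.1 + x.2) ⊆ T k r q p := by
    intro B' hB' s hs
    rw [Finset.mem_image] at hs
    obtain ⟨⟨a, b⟩, hab, rfl⟩ := hs
    rw [Finset.mem_sdiff, Finset.mem_product] at hab
    by_contra hns
    exact hab.2 (Finset.mem_filter.2 ⟨Finset.mem_product.2 ⟨hab.1.1, hB' hab.1.2⟩, hns⟩)
  refine ⟨A, A, F, A.card - 2 * (k + 1), by omega, rfl, ?_, Finset.filter_subset _ _, ?_, ?_,
    by omega, ?_⟩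
  · have : (A.card : ℝ) = (p : ℝ) - ((r : ℝ) - 2) ^ k * ((q : ℝ) - 2) := by
      have h := congrArg (fun z : ℤ => (z : ℝ)) hAc
      push_cast at h
      exact h
    rw [this]; exact hup
  · intro x
    by_cases hx : x ∈ A
    · obtain ⟨Q, hQA, hQc, hQ⟩ := good hr hq hpq A hA hx
      have h1 : (F.filter (fun y => y.1 = x)).card ≤ (A \ Q).card := by
        apply Finset.card_le_card_of_injOn (fun y => y.2)
        · intro y hy
          rw [Finset.mem_coe, Finset.mem_filter, Finset.mem_filter, Finset.mem_product] at hy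
          obtain ⟨⟨⟨hy1, hy2⟩, hy3⟩, hy4⟩ := hy
          rw [Finset.mem_coe, Finset.mem_sdiff]
          refine ⟨hy2, fun hy5 => hy3 ?_⟩
          rw [hy4]
          exact hQ _ hy5
        · intro y hy y' hy' hh
          rw [Finset.mem_coe, Finset.mem_filter] at hy hy'
          exact Prod.ext (hy.2.trans hy'.2.symm) hh
      rw [Finset.card_sdiff_of_subset hQA, hQc] at h1
      exact h1
    · have : F.filter (fun y => y.1 = x) = ∅ := by
        apply Finset.filter_eq_empty_iff.2
        intro y hy hyx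
        rw [Finset.mem_filter, Finset.mem_product] at hy
        exact hx (hyx ▸ hy.1.1)
      rw [this]; simp
  · intro x
    by_cases hx : x ∈ A
    · obtain ⟨Q, hQA, hQc, hQ⟩ := good hr hq hpq A hA hx
      have h1 : (F.filter (fun y => y.2 = x)).card ≤ (A \ Q).card := by
        apply Finset.card_le_card_of_injOn (fun y => y.1)
        · intro y hy
          rw [Finset.mem_coe, Finset.mem_filter, Finset.mem_filter, Finset.mem_product] at hy
          obtain ⟨⟨⟨hy1, hy2⟩, hy3⟩, hy4⟩ := hy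
          rw [Finset.mem_coe, Finset.mem_sdiff]
          refine ⟨hy1, fun hy5 => hy3 ?_⟩
          rw [hy4, add_comm]
          exact hQ _ hy5
        · intro y hy y' hy' hh
          rw [Finset.mem_coe, Finset.mem_filter] at hy hy'
          exact Prod.ext hh (hy.2.trans hy'.2.symm)
      rw [Finset.card_sdiff_of_subset hQA, hQc] at h1
      exact h1
    · have : F.filter (fun y => y.2 = x) = ∅ := by
        apply Finset.filter_eq_empty_iff.2
        intro y hy hyx
        rw [Finset.mem_filter, Finset.mem_product] at hy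
        exact hx (hyx ▸ hy.1.2)
      rw [this]; simp
  · intro B' hB'
    have h1 : (((A ×ˢ B') \ F).image (fun x => x.1 + x.2)).card ≤ 2 * (k + 1) + 1 :=
      (Finset.card_le_card (hsub B' hB')).trans (T_card k r q p)
    refine ⟨h1, ?_⟩
    have h2 : ((A.card - 2 * (k + 1) : ℕ) : ℤ) = (A.card : ℤ) - 2 * (k + 1) := by
      rw [Nat.cast_sub (by omega)]; push_cast; ring
    rw [h2]
    omega

end Pool.Agent.Results.MP_0e87b2_co.TwoSetFailure
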